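import Pool.Agent.W602.Cov.GAll
import Pool.Agent.W602.Cov.RFin
import Pool.Agent.W727.RC.EPL
import Pool.Agent.W521.RC.GNB
import Pool.Agent.W919.RC.RCV
import Pool.Agent.W334.RC.FIB

/-!
The Green-Griffiths-Lang conjecture for all projective varieties with a generically finite morphism
to projective space which is highly ramified over an irreducible hyperplane arrangement.
-/

set_option autoImplicit false

namespace Pool.Agent.Results.MP_8d161d_ag.RamifiedCovers

open Pool.Agent.W602.Cov Pool.Agent.W602.GT Pool.Agent.W602.Cov.R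

/-- Let `ℓ i = 0` be `q` hyperplanes in projective `n`-space whose arrangement is not reducible,
and let `X` be an irreducible closed subset of `P^N × P^n`, with function field `K`, whose
projection to `P^n` is dominant, generically finite, and ramified to order at least `M` over the
arrangement, `M > (n ^ 2 (n + 1) + 1) q`. Then `X` is of general type, and all entire curves in `X`
lie in a proper closed subset of `X`. -/
theorem result (N n q M : ℕ) (hn : 1 ≤ n) (ℓ : Fin q → Form n) (hℓ : ∀ i, ℓ i ≠ 0)
    (hirr : ¬ Reducible ℓ) (hM : (n ^ 2 * (n + 1) + 1) * q < M) (X : BiSet N n)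
    (hR : X.RamifiedOver ℓ M) (K : Type) [Field K] [Algebra ℂ K] (a : Fin (N + 1) → K)
    (b : Fin (n + 1) → K) (hK : X.FunctionField K a b) (hg : BiSet.GenFinite b) :
    GeneralType ℂ K n ∧ X.PseudoBrody :=
  ⟨Pool.Agent.W521.RC.GNB.main G.h_pgt N n q M ℓ X hn hℓ hirr hM hR K a b hK hg,
    pseudoBrody (Pool.Agent.W919.RC.RCV.main Pool.Agent.W727.RC.EPL.main)
      Pool.Agent.W334.RC.main X hℓ hirr hM hR hK hg⟩

end Pool.Agent.Results.MP_8d161d_ag.RamifiedCovers
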